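import Pool.Agent.H23.PL.Targets

set_option autoImplicit false

open Finset Polynomial Pool.Agent.H23.PL

namespace Pool.Agent.H88.PL

open Classical in
/-- the fibre over a pair -/
noncomputable def fib {t : ℕ} (I : Fin (t + 1) → Finset ℕ) (X : Finset (Fin (t + 1) → ℕ))
    (c d : ℕ) : Finset (Fin t → ℕ) :=
  (Fintype.piFinset fun l : Fin t => I l.succ).filter fun v =>
    (Fin.cons c v : Fin (t + 1) → ℕ) ∈ X ∧ (Fin.cons d v : Fin (t + 1) → ℕ) ∈ X

open Classical in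
lemma card_eq {t : ℕ} (I : Fin (t + 1) → Finset ℕ) (X : Finset (Fin (t + 1) → ℕ))
    (hX : X ⊆ Fintype.piFinset I) : (X.card : ℝ) =
      ∑ v ∈ Fintype.piFinset (fun l : Fin t => I l.succ), ∑ c ∈ I 0,
        (if (Fin.cons c v : Fin (t + 1) → ℕ) ∈ X then (1 : ℝ) else 0) := by
  have h1 : X.card = (((Fintype.piFinset fun l : Fin t => I l.succ) ×ˢ I 0).filter fun p =>
      (Fin.cons p.2 p.1 : Fin (t + 1) → ℕ) ∈ X).card := by
    refine Finset.card_nbij' (fun x => ((fun l : Fin t => x l.succ), x 0))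
      (fun p => (Fin.cons p.2 p.1 : Fin (t + 1) → ℕ)) ?_ ?_ ?_ ?_
    · intro x hx
      have hx' := hX hx
      rw [Fintype.mem_piFinset] at hx'
      have e : (Fin.cons (x 0) (fun l : Fin t => x l.succ) : Fin (t + 1) → ℕ) = x :=
        Fin.cons_self_tail x
      simp only [Finset.mem_coe, Finset.mem_filter, Finset.mem_product, Fintype.mem_piFinset]
      refine ⟨⟨fun l => hx' l.succ, hx' 0⟩, ?_⟩
      rw [e]
      exact hx
    · intro p hp
      exact (Finset.mem_filter.1 hp).2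
    · intro x _
      exact Fin.cons_self_tail x
    · intro p _
      rfl
  rw [h1, Finset.card_filter, Finset.sum_product]
  push_cast
  rfl

open Classical in
lemma sq_sum {t : ℕ} (I : Fin (t + 1) → Finset ℕ) (X : Finset (Fin (t + 1) → ℕ)) :
    ∑ v ∈ Fintype.piFinset (fun l : Fin t => I l.succ), (∑ c ∈ I 0,
        (if (Fin.cons c v : Fin (t + 1) → ℕ) ∈ X then (1 : ℝ) else 0)) ^ 2 =
      ∑ p ∈ I 0 ×ˢ I 0, ((fib I X p.1 p.2).card : ℝ) := by
  have h1 : ∀ p : ℕ × ℕ, ((fib I X p.1 p.2).card : ℝ) =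
      ∑ v ∈ Fintype.piFinset (fun l : Fin t => I l.succ),
        (if (Fin.cons p.1 v : Fin (t + 1) → ℕ) ∈ X then (1 : ℝ) else 0) *
        (if (Fin.cons p.2 v : Fin (t + 1) → ℕ) ∈ X then (1 : ℝ) else 0) := by
    intro p
    rw [fib, Finset.card_filter]
    push_cast
    refine Finset.sum_congr rfl fun v _ => ?_
    by_cases h1 : (Fin.cons p.1 v : Fin (t + 1) → ℕ) ∈ X <;>
      by_cases h2 : (Fin.cons p.2 v : Fin (t + 1) → ℕ) ∈ X <;> simp [h1, h2]
  rw [Finset.sum_congr rfl fun p _ => h1 p, Finset.sum_comm]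
  refine Finset.sum_congr rfl fun v _ => ?_
  rw [Finset.sum_product, sq, Finset.sum_mul_sum]

open Classical in
lemma step {t : ℕ} (I : Fin (t + 1) → Finset ℕ) (X : Finset (Fin (t + 1) → ℕ)) (H : ℕ)
    (hX : X ⊆ Fintype.piFinset I) (hH : ∀ l, H ≤ (I l).card)
    (hno : ¬ ∃ a b : Fin (t + 1) → ℕ, (∀ l, a l ≠ b l) ∧
      ∀ ε : Fin (t + 1) → Bool, (fun l => if ε l then b l else a l) ∈ X) (m : ℕ)
    (ih : ∀ (I : Fin t → Finset ℕ) (X : Finset (Fin t → ℕ)) (H : ℕ),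
      X ⊆ Fintype.piFinset I → (∀ l, H ≤ (I l).card) →
      (¬ ∃ a b : Fin t → ℕ, (∀ l, a l ≠ b l) ∧
        ∀ ε : Fin t → Bool, (fun l => if ε l then b l else a l) ∈ X) →
      (X.card : ℝ) ^ (m + 1) * H ≤ t * (∏ l, ((I l).card : ℝ)) ^ (m + 1)) :
    (X.card : ℝ) ^ ((m + 1) * 2) * H ≤
      ((t + 1 : ℕ) : ℝ) * (∏ l, ((I l).card : ℝ)) ^ ((m + 1) * 2) := by
  set P : ℝ := ∏ l : Fin t, ((I l.succ).card : ℝ) with hP
  have hP0 : 0 ≤ P := Finset.prod_nonneg fun _ _ => Nat.cast_nonneg _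
  have hPc : ((Fintype.piFinset fun l : Fin t => I l.succ).card : ℝ) = P := by
    rw [Fintype.card_piFinset]; push_cast; rfl
  have hCS : (X.card : ℝ) ^ 2 ≤ P * ∑ p ∈ I 0 ×ˢ I 0, ((fib I X p.1 p.2).card : ℝ) := by
    rw [card_eq I X hX, ← sq_sum I X, ← hPc]
    exact sq_sum_le_card_mul_sum_sq
  have hPM : (∑ p ∈ I 0 ×ˢ I 0, ((fib I X p.1 p.2).card : ℝ)) ^ (m + 1) ≤
      (((I 0).card : ℝ) ^ 2) ^ m *
        ∑ p ∈ I 0 ×ˢ I 0, ((fib I X p.1 p.2).card : ℝ) ^ (m + 1) := by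
    have h1 := pow_sum_le_card_mul_sum_pow (s := I 0 ×ˢ I 0)
      (f := fun p => ((fib I X p.1 p.2).card : ℝ)) (fun _ _ => Nat.cast_nonneg _) m
    rw [Finset.card_product] at h1
    refine h1.trans (le_of_eq ?_)
    push_cast
    rw [sq]
  have hoff : ∀ c d : ℕ, c ≠ d → ((fib I X c d).card : ℝ) ^ (m + 1) * H ≤
      t * P ^ (m + 1) := by
    intro c d hcd
    refine ih (fun l => I l.succ) (fib I X c d) H (Finset.filter_subset _ _)
      (fun l => hH l.succ) ?_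
    rintro ⟨a, b, hab, hbox⟩
    refine hno ⟨Fin.cons c a, Fin.cons d b, ?_, ?_⟩
    · intro l
      refine Fin.cases ?_ (fun l => ?_) l
      · simpa using hcd
      · simpa using hab l
    · intro ε
      have h1 := hbox (fun l => ε l.succ)
      have h2 := (Finset.mem_filter.1 h1).2
      have e : (fun l => if ε l then (Fin.cons d b : Fin (t + 1) → ℕ) l
          else (Fin.cons c a : Fin (t + 1) → ℕ) l) =
          (Fin.cons (if ε 0 then d else c)
            (fun l => if ε l.succ then b l else a l) : Fin (t + 1) → ℕ) := by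
        funext l
        refine Fin.cases ?_ (fun l => ?_) l
        · simp
        · simp
      rw [e]
      by_cases h0 : ε 0 = true
      · rw [if_pos h0]
        exact h2.2
      · rw [if_neg h0]
        exact h2.1
  have hdiag : ∀ c d : ℕ, ((fib I X c d).card : ℝ) ≤ P := by
    intro c d
    rw [← hPc]
    exact_mod_cast Finset.card_le_card (Finset.filter_subset _ _)
  have hPM0 : 0 ≤ P ^ (m + 1) := pow_nonneg hP0 _
  have hH0 : (0 : ℝ) ≤ H := Nat.cast_nonneg _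
  have hsum : (∑ p ∈ I 0 ×ˢ I 0, ((fib I X p.1 p.2).card : ℝ) ^ (m + 1)) * H ≤
      ((t : ℝ) + 1) * (((I 0).card : ℝ) ^ 2 * P ^ (m + 1)) := by
    rw [Finset.sum_mul]
    have h1 : ∀ p ∈ I 0 ×ˢ I 0, ((fib I X p.1 p.2).card : ℝ) ^ (m + 1) * H ≤
        t * P ^ (m + 1) + (if p.1 = p.2 then P ^ (m + 1) * H else 0) := by
      rintro ⟨c, d⟩ _
      by_cases hcd : c = d
      · have h3 : ((fib I X c d).card : ℝ) ^ (m + 1) * H ≤ P ^ (m + 1) * H :=
          mul_le_mul_of_nonneg_right (pow_le_pow_left₀ (Nat.cast_nonneg _) (hdiag c d) _) hH0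
        have h4 : (0 : ℝ) ≤ t * P ^ (m + 1) := mul_nonneg (Nat.cast_nonneg _) hPM0
        rw [if_pos hcd]
        exact h3.trans (le_add_of_nonneg_left h4)
      · rw [if_neg hcd, add_zero]
        exact hoff c d hcd
    refine (Finset.sum_le_sum h1).trans ?_
    have h5 : ∑ p ∈ I 0 ×ˢ I 0, (if p.1 = p.2 then P ^ (m + 1) * (H : ℝ) else 0) =
        ((I 0).card : ℝ) * (P ^ (m + 1) * H) := by
      rw [Finset.sum_product]
      have h6 : ∀ c ∈ I 0, ∑ d ∈ I 0, (if c = d then P ^ (m + 1) * (H : ℝ) else 0) =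
          P ^ (m + 1) * H := by
        intro c hc
        rw [Finset.sum_ite_eq, if_pos hc]
      rw [Finset.sum_congr rfl h6, Finset.sum_const, nsmul_eq_mul]
    rw [Finset.sum_add_distrib, Finset.sum_const, Finset.card_product, h5, nsmul_eq_mul]
    have h7 : (H : ℝ) ≤ (I 0).card := by exact_mod_cast hH 0
    have h8 : ((I 0).card : ℝ) * (P ^ (m + 1) * H) ≤
        ((I 0).card : ℝ) * (P ^ (m + 1) * (I 0).card) :=
      mul_le_mul_of_nonneg_left (mul_le_mul_of_nonneg_left h7 hPM0) (Nat.cast_nonneg _)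
    refine (add_le_add_right h8 _).trans (le_of_eq ?_)
    push_cast
    ring
  have hpow : (X.card : ℝ) ^ ((m + 1) * 2) * H ≤
      P ^ (m + 1) * ((((I 0).card : ℝ) ^ 2) ^ m *
        (((t : ℝ) + 1) * (((I 0).card : ℝ) ^ 2 * P ^ (m + 1)))) := by
    rw [mul_comm (m + 1) 2, pow_mul]
    have hS0 : (0 : ℝ) ≤ ∑ p ∈ I 0 ×ˢ I 0, ((fib I X p.1 p.2).card : ℝ) :=
      Finset.sum_nonneg fun _ _ => Nat.cast_nonneg _
    calc ((X.card : ℝ) ^ 2) ^ (m + 1) * H
        ≤ (P * ∑ p ∈ I 0 ×ˢ I 0, ((fib I X p.1 p.2).card : ℝ)) ^ (m + 1) * H :=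
          mul_le_mul_of_nonneg_right (pow_le_pow_left₀ (sq_nonneg _) hCS _) hH0
      _ = P ^ (m + 1) * ((∑ p ∈ I 0 ×ˢ I 0, ((fib I X p.1 p.2).card : ℝ)) ^ (m + 1) * H) := by
          rw [mul_pow, mul_assoc]
      _ ≤ P ^ (m + 1) * (((((I 0).card : ℝ) ^ 2) ^ m *
            ∑ p ∈ I 0 ×ˢ I 0, ((fib I X p.1 p.2).card : ℝ) ^ (m + 1)) * H) :=
          mul_le_mul_of_nonneg_left (mul_le_mul_of_nonneg_right hPM hH0) hPM0
      _ = P ^ (m + 1) * ((((I 0).card : ℝ) ^ 2) ^ m *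
            ((∑ p ∈ I 0 ×ˢ I 0, ((fib I X p.1 p.2).card : ℝ) ^ (m + 1)) * H)) := by
          rw [mul_assoc]
      _ ≤ _ := mul_le_mul_of_nonneg_left (mul_le_mul_of_nonneg_left hsum
            (pow_nonneg (sq_nonneg _) _)) hPM0
  refine hpow.trans (le_of_eq ?_)
  rw [Fin.prod_univ_succ, ← hP]
  push_cast
  ring

theorem pf_HYP : T_HYP := by
  intro t
  induction t with
  | zero =>
    intro I X H _ _ hno
    have hX : X = ∅ := by
      by_contra hne
      obtain ⟨x, hx⟩ := Finset.nonempty_iff_ne_empty.2 hne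
      refine hno ⟨x, x, fun l => l.elim0, fun ε => ?_⟩
      have e : (fun l => if ε l then x l else x l) = x := by
        funext l; exact l.elim0
      rw [e]
      exact hx
    simp [hX]
  | succ t ih =>
    intro I X H hX hH hno
    classical
    obtain ⟨m, hm⟩ : ∃ m, 2 ^ t = m + 1 :=
      ⟨2 ^ t - 1, by have : 1 ≤ 2 ^ t := Nat.one_le_two_pow; omega⟩
    rw [pow_succ 2 t, hm]
    rw [hm] at ih
    exact step I X H hX hH hno m ih

end Pool.Agent.H88.PL
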