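import Pool.Agent.H23.PL.Targets

set_option autoImplicit false

open Finset Polynomial Pool.Agent.H23.PL

namespace Pool.Agent.H88.PL

/-- the halved coefficients -/
noncomputable def cc (G : ℕ → ℤ√2) : ℕ → ℤ√2
  | 0 => 0
  | (k + 1) => 4 ^ k * G (k + 1) - ∑ j : Fin k, cc G (j + 1) * cc G (k - j)
termination_by k => k
decreasing_by
  · have := j.2; omega
  · have := j.2; omega

/-- the coefficients -/
noncomputable def ga (G : ℕ → ℤ√2) (k : ℕ) : ℤ√2 := if k = 0 then 1 else 2 * cc G k

lemma ga_zero (G : ℕ → ℤ√2) : ga G 0 = 1 := by simp [ga]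

lemma ga_succ (G : ℕ → ℤ√2) (k : ℕ) : ga G (k + 1) = 2 * cc G (k + 1) := by simp [ga]

lemma two_ga (G : ℕ → ℤ√2) (n : ℕ) : 2 * ga G (n + 1) =
    4 ^ (n + 1) * G (n + 1) - ∑ k ∈ range n, ga G (k + 1) * ga G (n - k) := by
  have h1 : ∑ k ∈ range n, ga G (k + 1) * ga G (n - k) =
      4 * ∑ j : Fin n, cc G (j + 1) * cc G (n - j) := by
    rw [← Fin.sum_univ_eq_sum_range (fun k => ga G (k + 1) * ga G (n - k)), Finset.mul_sum]
    refine Finset.sum_congr rfl fun j _ => ?_
    have h2 : n - (j : ℕ) = (n - (j : ℕ) - 1) + 1 := by have := j.2; omega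
    rw [ga_succ, h2, ga_succ]
    ring
  rw [h1, ga_succ, cc]
  ring

lemma conv (G : ℕ → ℤ√2) (hG : G 0 = 1) (k : ℕ) :
    ∑ ij ∈ antidiagonal k, ga G ij.1 * ga G ij.2 = 4 ^ k * G k := by
  rcases k with _ | n
  · simp [ga_zero, hG]
  · rw [Finset.Nat.sum_antidiagonal_eq_sum_range_succ (fun i j => ga G i * ga G j) (n + 1),
      Finset.sum_range_succ, Finset.sum_range_succ']
    have h1 : ∑ k ∈ range n, ga G (k + 1) * ga G (n + 1 - (k + 1)) =
        ∑ k ∈ range n, ga G (k + 1) * ga G (n - k) := by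
      refine Finset.sum_congr rfl fun j _ => ?_
      rw [Nat.add_sub_add_right]
    have h2 := two_ga G n
    rw [h1, Nat.sub_self, Nat.sub_zero, ga_zero]
    linear_combination h2

lemma one_le_catalan (n : ℕ) : 1 ≤ catalan n := by
  rw [catalan_eq_centralBinom_div]
  refine (Nat.one_le_div_iff (by omega)).2 ?_
  exact Nat.le_of_dvd (Nat.centralBinom_pos n) n.succ_dvd_centralBinom

lemma catalan_le (n : ℕ) : catalan n ≤ 4 ^ n := by
  rw [catalan_eq_centralBinom_div]
  refine (Nat.div_le_self _ _).trans ?_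
  calc n.centralBinom ≤ 2 ^ (2 * n) := by
        rw [Nat.centralBinom_eq_two_mul_choose]; exact Nat.choose_le_two_pow _ _
    _ = 4 ^ n := by rw [pow_mul]; norm_num

lemma catalan_sum (n : ℕ) :
    ∑ k ∈ range n, (catalan k : ℝ) * catalan (n - k - 1) ≤ (catalan n : ℝ) := by
  rcases n with _ | m
  · simp
  · rw [catalan_succ, Nat.cast_sum,
      ← Fin.sum_univ_eq_sum_range (fun k => (catalan k : ℝ) * catalan (m + 1 - k - 1))]
    refine le_of_eq (Finset.sum_congr rfl fun j _ => ?_)
    have h2 : m + 1 - (j : ℕ) - 1 = m - (j : ℕ) := by have := j.2; omega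
    rw [h2]
    push_cast
    rfl

lemma bound (G : ℕ → ℤ√2) (f : ℤ√2 →+* ℝ) (c : ℝ) (hc : 0 ≤ c)
    (h : ∀ k, |f (G k)| ≤ c ^ k) (n : ℕ) :
    |f (ga G (n + 1))| ≤ (4 * c) ^ (n + 1) * catalan n := by
  induction n using Nat.strong_induction_on with
  | _ n ih =>
    have h1 := congrArg f (two_ga G n)
    rw [map_sub, map_mul, map_mul, map_pow, map_sum] at h1
    have e2 : f 2 = 2 := map_ofNat f 2
    have e4 : f 4 = 4 := map_ofNat f 4
    rw [e2, e4] at h1
    have h2 : |∑ k ∈ range n, f (ga G (k + 1) * ga G (n - k))| ≤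
        (4 * c) ^ (n + 1) * catalan n := by
      refine (Finset.abs_sum_le_sum_abs _ _).trans ?_
      refine le_trans (Finset.sum_le_sum (g := fun k => (4 * c) ^ (n + 1) *
        ((catalan k : ℝ) * catalan (n - k - 1))) fun k hk => ?_) ?_
      · have hk' : k < n := Finset.mem_range.1 hk
        have e : n - k = (n - k - 1) + 1 := by omega
        have i1 := ih k hk'
        have i2 := ih (n - k - 1) (by omega)
        rw [← e] at i2
        rw [map_mul, abs_mul]
        calc |f (ga G (k + 1))| * |f (ga G (n - k))|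
            ≤ ((4 * c) ^ (k + 1) * catalan k) * ((4 * c) ^ (n - k) * catalan (n - k - 1)) :=
              mul_le_mul i1 i2 (abs_nonneg _) (by positivity)
          _ = (4 * c) ^ ((k + 1) + (n - k)) * ((catalan k : ℝ) * catalan (n - k - 1)) := by
              rw [pow_add]; ring
          _ = (4 * c) ^ (n + 1) * ((catalan k : ℝ) * catalan (n - k - 1)) := by
              congr 2; omega
      · rw [← Finset.mul_sum]
        exact mul_le_mul_of_nonneg_left (catalan_sum n) (by positivity)
    have h3 : |4 ^ (n + 1) * f (G (n + 1))| ≤ (4 * c) ^ (n + 1) * catalan n := by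
      rw [abs_mul, abs_of_pos (by positivity : (0 : ℝ) < 4 ^ (n + 1)), mul_pow]
      have h4 : (1 : ℝ) ≤ catalan n := by exact_mod_cast one_le_catalan n
      calc (4 : ℝ) ^ (n + 1) * |f (G (n + 1))| ≤ 4 ^ (n + 1) * c ^ (n + 1) :=
            mul_le_mul_of_nonneg_left (h (n + 1)) (by positivity)
        _ ≤ 4 ^ (n + 1) * c ^ (n + 1) * catalan n :=
            le_mul_of_one_le_right (by positivity) h4
    have h5 : |2 * f (ga G (n + 1))| ≤ 2 * ((4 * c) ^ (n + 1) * catalan n) := by
      rw [h1]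
      refine (abs_sub _ _).trans ?_
      linarith
    rw [abs_mul, abs_of_pos (by norm_num : (0 : ℝ) < 2)] at h5
    linarith

theorem pf_SEQ : T_SEQ := by
  intro G hG
  refine ⟨ga G, ga_zero G, conv G hG, ?_⟩
  intro f c h k
  have hc : 0 ≤ c := by
    have := h 1
    rw [pow_one] at this
    exact (abs_nonneg _).trans this
  rcases k with _ | n
  · simp [ga_zero]
  · refine (bound G f c hc h n).trans ?_
    have h1 : (catalan n : ℝ) ≤ 4 ^ n := by exact_mod_cast catalan_le n
    calc (4 * c) ^ (n + 1) * (catalan n : ℝ) ≤ (4 * c) ^ (n + 1) * 4 ^ n :=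
          mul_le_mul_of_nonneg_left h1 (by positivity)
      _ ≤ (4 * c) ^ (n + 1) * 4 ^ (n + 1) :=
          mul_le_mul_of_nonneg_left (pow_le_pow_right₀ (by norm_num) (by omega)) (by positivity)
      _ = (16 * c) ^ (n + 1) := by rw [← mul_pow]; congr 1; ring

end Pool.Agent.H88.PL
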